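import Pool.Agent.FCRS.Defs

set_option autoImplicit false

namespace Pool.Agent.FCRS

open Letter

namespace AccX

theorem lv_pos (t : T) : 1 ≤ t.lv := by
  cases t with
  | o => simp [T.lv]
  | n l r => have := lv_pos l; simp only [T.lv]; omega

theorem act_nil (c : Letter) : act c [] = none := by cases c <;> rfl

theorem act_o (c : Letter) : act c [.o] = none := by cases c <;> rfl

theorem run_nil (V : W) (t : List T) (h : run V [] = some t) : t = [] := by
  induction V generalizing t with
  | nil => simpa [run] using h.symm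
  | cons c w ih =>
    simp only [run, Option.bind_eq_some_iff] at h
    obtain ⟨u, hu, hc⟩ := h
    rw [ih u hu, act_nil] at hc
    cases hc

theorem run_o (V : W) (t : List T) (h : run V [.o] = some t) : V = [] ∧ t = [.o] := by
  induction V generalizing t with
  | nil => simpa [run] using h.symm
  | cons c w ih =>
    simp only [run, Option.bind_eq_some_iff] at h
    obtain ⟨u, hu, hc⟩ := h
    rw [(ih u hu).2, act_o] at hc
    cases hc

theorem lvs_zero (s : List T) (h : lvs s = 0) : s = [] := by
  cases s with
  | nil => rfl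
  | cons t s => have := lv_pos t; simp only [lvs] at h; omega

theorem lvs_one (s : List T) (h : lvs s = 1) : s = [.o] := by
  cases s with
  | nil => simp [lvs] at h
  | cons t s =>
    simp only [lvs] at h
    have h1 := lv_pos t
    have h2 : s = [] := lvs_zero s (by omega)
    subst h2
    cases t with
    | o => rfl
    | n l r =>
      have := lv_pos l
      have := lv_pos r
      simp only [T.lv, lvs] at h
      omega

theorem not_rst_nil (V : W) : ¬ Rst [] V := by
  rintro ⟨x, y, lr, hlr, h1, -⟩
  have : lr.1 = [] := by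
    have := List.append_eq_nil_iff.1 h1.symm
    exact (List.append_eq_nil_iff.1 this.1).2
  revert lr
  simp [rules]

/-- the relation used for the entries -/
def rr (n : ℕ) (x' x : Seg) : Prop := TRel x x' ∧ TValid n x

theorem rr_wf (n : ℕ) (ih : ∀ x : Seg, TValid n x → Acc (fun x' x => TRel x x') x) :
    WellFounded (rr n) := by
  constructor
  intro x
  by_cases hx : TValid n x
  · have := ih x hx
    induction this with
    | intro x hacc ih2 =>
      constructor
      rintro y ⟨hy, hv⟩
      by_cases hyv : TValid n y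
      · exact ih2 y hy hyv
      · constructor
        rintro z ⟨-, hz⟩
        exact absurd hz hyv
  · constructor
    rintro y ⟨-, hz⟩
    exact absurd hz hx

theorem kl_shortlex (n : ℕ) (R' R : List Seg) (h : KL R' R) (hR : ∀ x ∈ R, TValid n x) :
    List.Shortlex (rr n) R'.reverse R.reverse := by
  rcases h with h | ⟨q, q', x, x', R0, h1, h2, h3, h4⟩
  · exact List.Shortlex.of_length_lt (by simpa using h)
  · subst h1 h2
    apply List.Shortlex.of_lex
    · simp [h3]
    · simp only [List.reverse_append, List.reverse_cons, List.append_assoc]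
      have : List.Lex (rr n) ([x'] ++ q'.reverse) ([x] ++ q.reverse) := by
        apply List.Lex.rel
        exact ⟨h4, hR x (by simp)⟩
      exact List.Lex.append_left _ this _

theorem main (hP : Stmt_Pref) (hR : Stmt_RMove) (hG : Stmt_Geo) (n : ℕ) (hn : 1 ≤ n)
    (ih : ∀ x : Seg, TValid n x → Acc (fun x' x => TRel x x') x) (s : List T) (hs : lvs s = n + 1) :
    ∀ (M : List Seg) (m : ℕ) (x : Seg) (D : Dw), pushes x.2 (s, [], []) = some D →
      cond x.1 D.1 → (K x.1 D).reverse = M → rk x = m → Acc (fun x' x => TRel x x') x := by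
  intro M
  induction M using (List.Shortlex.wf (rr_wf n ih)).induction with
  | _ M ihM =>
  intro m
  induction m using Nat.strong_induction_on with
  | _ m ihm =>
  intro x D hD hc hK hr
  have hval : ∀ y ∈ K x.1 D, TValid n y := hG n x.1 x.2 s D hn hs hD hc
  constructor
  intro x' hx'
  have key : ∃ D', pushes x'.2 (s, [], []) = some D' ∧ cond x'.1 D'.1 ∧
      (KL (K x'.1 D') (K x.1 D) ∨ (K x'.1 D' = K x.1 D ∧ rk x' < rk x)) := by
    cases hx' with
    | R k V V' h => exact hR k V V' s D h hD hc
    | M _ _ h => exact hP x x' s D h hD hc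
  obtain ⟨D', hD', hc', h | ⟨h1, h2⟩⟩ := key
  · exact ihM _ (hK ▸ kl_shortlex n _ _ h hval) _ x' D' hD' hc' rfl rfl
  · exact ihm (rk x') (hr ▸ h2) x' D' hD' hc' (by rw [h1, hK]) rfl

end AccX

open AccX in
theorem acc_proof (hP : Stmt_Pref) (hR : Stmt_RMove) (hG : Stmt_Geo) (hU : Stmt_RunP) :
    Stmt_Acc := by
  intro n
  induction n with
  | zero =>
    rintro x ⟨s, t, hs, hr, hc⟩
    rw [lvs_zero s hs] at hr
    rw [run_nil _ _ hr] at hc
    cases h : x.1 <;> rw [h] at hc <;> simp [cond] at hc
  | succ n ih =>
    rcases Nat.eq_zero_or_pos n with hn | hn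
    · subst hn
      rintro ⟨k, V⟩ ⟨s, t, hs, hr, hc⟩
      rw [lvs_one s (by simpa using hs)] at hr
      obtain ⟨rfl, rfl⟩ : V = [] ∧ t = [.o] := run_o _ _ hr
      constructor
      intro y hy
      cases hy with
      | R k V V' h => exact absurd h (not_rst_nil V')
      | M _ _ h =>
        cases h
        simp [cond] at hc
    · rintro x ⟨s, t, hs, hr, hc⟩
      obtain ⟨w, R, hD⟩ := (hU x.2 s t).1 hr
      exact main hP hR hG n hn ih s hs _ _ x (t, w, R) hD hc rfl rfl

end Pool.Agent.FCRS
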