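import Mathlib

/-!
# Squad FCRS (MP_3494e6_al): termination of helper6's 30-rule rewriting system for Thompson's group F

Words act from right to left on forests (lists of binary trees): `a` merges trees 0,1, `b` merges trees 1,2,
`p = ba` merges 0,1 and 2,3; capital letters are the inverses.
-/

set_option autoImplicit false

namespace Pool.Agent.FCRS

/-- the six letters: `a = x₀`, `b = x₁`, `p = x₁x₀`, capitals = inverses. -/
inductive Letter
  | a | A | b | B | p | P
  deriving DecidableEq, Repr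

instance : Fintype Letter :=
  ⟨{.a, .A, .b, .B, .p, .P}, by intro x; cases x <;> decide⟩

abbrev W := List Letter

open Letter

/-- the 30 rules. -/
def rules : List (W × W) := [
  ([a,A],[]), ([A,a],[]), ([b,B],[]), ([B,b],[]), ([p,P],[]), ([P,p],[]),
  ([b,a],[p]), ([A,B],[P]), ([a,P],[B]), ([B,p],[a]), ([p,A],[b]), ([P,b],[A]),
  ([p,b],[a,b,A,A,p,a]),
  ([B,a,b],[a,b,A,P,a,a]),
  ([P,a,b],[b,A,P,a,a]),
  ([p,p,B],[a,p,B,A,A,p,a]),
  ([B,a,p,B],[a,p,B,A,P,a,a]),
  ([P,a,p,B],[p,B,A,P,a,a]),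
  ([p,a,a],[a,a,B,A,p,p]),
  ([p,a,b],[a,a,b,P,A,p,p]),
  ([p,a,B],[a,a,B,A,p]),
  ([p,a,p],[a,a,b,P,A,p,p,a]),
  ([B,a,a,a],[a,a,B,P,a,p]),
  ([B,a,a,b],[a,a,b,P,P,a,p]),
  ([B,a,a,B],[a,a,B,P,a]),
  ([B,a,a,p],[a,a,b,P,P,a,p,a]),
  ([P,a,a,a],[a,B,P,a,p]),
  ([P,a,a,b],[a,b,P,P,a,p]),
  ([P,a,a,B],[a,B,P,a]),
  ([P,a,a,p],[a,b,P,P,a,p,a])]

/-- one rewriting step `w → w'`. -/
def Rst (w w' : W) : Prop :=
  ∃ x y : W, ∃ lr ∈ rules, w = x ++ lr.1 ++ y ∧ w' = x ++ lr.2 ++ y

/-- binary trees -/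
inductive T
  | o : T
  | n : T → T → T

/-- number of leaves -/
def T.lv : T → ℕ
  | .o => 1
  | .n l r => l.lv + r.lv

/-- number of leaves of a forest -/
def lvs : List T → ℕ
  | [] => 0
  | t :: s => t.lv + lvs s

/-- action of a letter on a forest (partial) -/
def act : Letter → List T → Option (List T)
  | .a, f0 :: f1 :: t => some (.n f0 f1 :: t)
  | .A, .n f0 f1 :: t => some (f0 :: f1 :: t)
  | .b, f0 :: f1 :: f2 :: t => some (f0 :: .n f1 f2 :: t)
  | .B, f0 :: .n f1 f2 :: t => some (f0 :: f1 :: f2 :: t)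
  | .p, f0 :: f1 :: f2 :: f3 :: t => some (.n f0 f1 :: .n f2 f3 :: t)
  | .P, .n f0 f1 :: .n f2 f3 :: t => some (f0 :: f1 :: f2 :: f3 :: t)
  | _, _ => none

/-- the tree `f` is the last leaf of the forest `f :: t` -/
def top : T → List T → Bool
  | .o, [] => true
  | _, _ => false

/-- does the letter touch the top boundary? -/
def mk : Letter → List T → Bool
  | .a, _ :: f1 :: t => top f1 t
  | .A, .n _ f1 :: t => top f1 t
  | .b, _ :: _ :: f2 :: t => top f2 t
  | .B, _ :: .n _ f2 :: t => top f2 t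
  | .p, _ :: _ :: _ :: f3 :: t => top f3 t
  | .P, .n _ _ :: .n _ f3 :: t => top f3 t
  | _, _ => false

/-- kinds of typed segments: `s` = bounded on the left by a splitting event (or nothing);
`a, b, p` = bounded on the left by a merging event of this letter -/
inductive Kd
  | s | a | b | p
  deriving DecidableEq, Repr

def kd : Letter → Kd
  | .a => .a
  | .b => .b
  | .p => .p
  | _ => .s

def ini : Letter → W
  | .P => [A]
  | _ => []

abbrev Seg := Kd × W

/-- decomposed words: (state, leftmost segment, the closed typed segments, leftmost first) -/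
abbrev Dw := List T × W × List Seg

/-- prolong a decomposed word by a letter on the left -/
def push (c : Letter) (D : Dw) : Option Dw :=
  (act c D.1).map fun t' =>
    if mk c D.1 then (t', ini c, (kd c, D.2.1) :: D.2.2) else (t', c :: D.2.1, D.2.2)

def pushes : W → Dw → Option Dw
  | [], D => some D
  | c :: w, D => (pushes w D).bind (push c)

def run : W → List T → Option (List T)
  | [], s => some s
  | c :: w, s => (run w s).bind (act c)

/-- prefix moves of typed segments -/
inductive PM : Seg → Seg → Prop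
  | s1 (Y : W) : PM (.s, a :: b :: Y) (.s, a :: a :: Y)
  | s2 (Y : W) : PM (.s, a :: p :: B :: Y) (.s, a :: a :: Y)
  | s3 (Y : W) : PM (.s, a :: a :: a :: Y) (.s, a :: p :: Y)
  | s4 (Y : W) : PM (.s, a :: a :: b :: Y) (.s, a :: p :: Y)
  | s5 (Y : W) : PM (.s, a :: a :: B :: Y) (.s, a :: Y)
  | s6 (Y : W) : PM (.s, a :: a :: p :: Y) (.s, a :: p :: a :: Y)
  | b1 (Y : W) : PM (.b, a :: Y) (.p, Y)
  | b2 (Y : W) : PM (.b, Y) (.a, a :: Y)
  | p1 (Y : W) : PM (.p, A :: Y) (.b, Y)
  | p2 (Y : W) : PM (.p, b :: Y) (.p, a :: Y)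
  | p3 (Y : W) : PM (.p, p :: B :: Y) (.p, a :: Y)
  | p4 (Y : W) : PM (.p, a :: a :: Y) (.p, p :: Y)
  | p5 (Y : W) : PM (.p, a :: b :: Y) (.p, p :: Y)
  | p6 (Y : W) : PM (.p, a :: B :: Y) (.p, Y)
  | p7 (Y : W) : PM (.p, a :: p :: Y) (.p, p :: a :: Y)
  | p8 (Y : W) : PM (.p, B :: Y) (.a, a :: Y)
  | a1 (Y : W) : PM (.a, a :: a :: Y) (.p, Y)
  | a2 (Y : W) : PM (.a, a :: b :: Y) (.p, Y)
  | a3 (Y : W) : PM (.a, a :: p :: Y) (.p, a :: Y)

/-- the steps of typed segments: rewriting inside, and prefix moves -/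
inductive TRel : Seg → Seg → Prop
  | R (k : Kd) (V V' : W) : Rst V V' → TRel (k, V) (k, V')
  | M (x x' : Seg) : PM x x' → TRel x x'

/-- allowed end states of a typed segment -/
def cond : Kd → List T → Prop
  | .s, t => t.length = 1 ∨ t.length = 2
  | .a, t => t.length = 1
  | .b, t => t.length = 2
  | .p, t => t.length = 3

/-- valid typed segments at level `n` -/
def TValid (n : ℕ) (x : Seg) : Prop :=
  ∃ s t, lvs s = n ∧ run x.2 s = some t ∧ cond x.1 t

/-- lexicographic comparison from the right of lists of the same length, or shorter: `KL R' R` = `R'` is smaller -/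
def KL (R' R : List Seg) : Prop :=
  R'.length < R.length ∨
    ∃ (q q' : List Seg) (x x' : Seg) (R0 : List Seg),
      R = q ++ x :: R0 ∧ R' = q' ++ x' :: R0 ∧ q'.length = q.length ∧ TRel x x'

/-- strict comparison of decomposed words with the same state -/
def Less (D' D : Dw) : Prop :=
  D'.1 = D.1 ∧ (KL D'.2.2 D.2.2 ∨ (D'.2.2 = D.2.2 ∧ Rst D.2.1 D'.2.1))

/-- the measure of a typed word with decomposition `D` -/
def K : Kd → Dw → List Seg
  | .s, (_, w, R) => (.s, w) :: R
  | .a, ([.n _ .o], _, R) => match R with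
    | (_, u) :: R' => (.s, u) :: R'
    | [] => []
  | .a, (_, w, R) => (.a, w) :: R
  | .b, ([_, .o], w, R) => (.s, w) :: R
  | .b, (_, w, R) => (.b, w) :: R
  | .p, ([_, _, .o], w, R) => (.s, .a :: w) :: R
  | .p, (_, w, R) => (.p, w) :: R

def rk : Seg → ℕ
  | (.s, V) => V.length
  | (.a, V) => V.length
  | (.b, V) => V.length + 2
  | (.p, V) => V.length + 1

/-! ## Statements of the modules -/

/-- module RULE: effect of a rule on decomposed words (finite case analysis on the forest `D.1`). -/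
def Stmt_Rule : Prop :=
  ∀ lr ∈ rules, ∀ D D' : Dw, pushes lr.1 D = some D' →
    ∃ D'', pushes lr.2 D = some D'' ∧ (Less D'' D' ∨ (D'' = D' ∧ lr.2.length < lr.1.length))

/-- module STEP: effect of a rewriting step (prolong `Stmt_Rule` to the left). -/
def Stmt_Step : Prop :=
  ∀ w w' : W, Rst w w' → ∀ D E : Dw, pushes w D = some E →
    ∃ E', pushes w' D = some E' ∧ (Less E' E ∨ (E' = E ∧ w'.length < w.length))

/-- module PREF: effect of the prefix moves on the measure. (finite case analysis on the forest after `Y`.) -/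
def Stmt_Pref : Prop :=
  ∀ (x x' : Seg) (s : List T) (D : Dw), PM x x' →
    pushes x.2 (s, [], []) = some D → cond x.1 D.1 →
    ∃ D', pushes x'.2 (s, [], []) = some D' ∧ cond x'.1 D'.1 ∧
      (KL (K x'.1 D') (K x.1 D) ∨ (K x'.1 D' = K x.1 D ∧ rk x' < rk x))

/-- module RMOVE: effect of the rewriting moves on the measure. -/
def Stmt_RMove : Prop :=
  ∀ (k : Kd) (V V' : W) (s : List T) (D : Dw), Rst V V' →
    pushes V (s, [], []) = some D → cond k D.1 →
    ∃ D', pushes V' (s, [], []) = some D' ∧ cond k D'.1 ∧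
      (KL (K k D') (K k D) ∨ (K k D' = K k D ∧ rk (k, V') < rk (k, V)))

/-- module GEO: the segments are valid one level lower. -/
def Stmt_Geo : Prop :=
  ∀ (n : ℕ) (k : Kd) (V : W) (s : List T) (D : Dw), 1 ≤ n → lvs s = n + 1 →
    pushes V (s, [], []) = some D → cond k D.1 → ∀ x ∈ K k D, TValid n x

/-- module RUNP: `run` and `pushes` agree. -/
def Stmt_RunP : Prop :=
  ∀ (V : W) (s : List T) (t : List T), run V s = some t ↔ ∃ w R, pushes V (s, [], []) = some (t, w, R)

/-- module ALLV: every word is valid from some forest, with one tree at the end after adding letters `a`. -/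
def Stmt_AllV : Prop :=
  ∀ w : W, ∃ (m n : ℕ), TValid n (.s, List.replicate m a ++ w)

/-- module ACC: well-foundedness (Shortlex). -/
def Stmt_Acc : Prop := ∀ n (x : Seg), TValid n x → Acc (fun x' x => TRel x x') x

/-- the goal -/
def Stmt_Term : Prop := WellFounded (fun w' w : W => Rst w w')

end Pool.Agent.FCRS
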